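import Mathlib
import Pool.Agent.Helper379.EpsReg

set_option autoImplicit false

namespace Pool.Agent.Results.MP_b47c0e_co.ImprovedBound

open Classical in
/-- The density `d(X, Y) = e(X, Y) / (|X| |Y|)`, where `e(X, Y)` is the number of ordered pairs
`(x, y) ∈ X × Y` with `xy` an edge. -/
noncomputable def dens {V : Type} (G : SimpleGraph V) (X Y : Finset V) : ℝ :=
  (((X ×ˢ Y).filter fun p => G.Adj p.1 p.2).card : ℝ) / ((X.card : ℝ) * Y.card)

/-- `U` is a nonempty `ε`-regular set of vertices. -/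
def EpsRegular {V : Type} (G : SimpleGraph V) (ε : ℝ) (U : Finset V) : Prop :=
  U.Nonempty ∧ ∀ X Y : Finset V, X ⊆ U → Y ⊆ U → ε * U.card ≤ X.card → ε * U.card ≤ Y.card →
    |dens G X Y - dens G U U| ≤ ε

/-- For every `0 < ε < 1/2`, every graph on `n ≥ 1` vertices contains an `ε`-regular set of at least
`2 ^ (-(1/ε) ^ (490/ε²)) n` vertices. -/
theorem result (ε : ℝ) (hε : 0 < ε) (hε2 : ε < 1 / 2) (V : Type) [Fintype V] [Nonempty V]
    (G : SimpleGraph V) :
    ∃ U : Finset V, EpsRegular G ε U ∧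
      (2 : ℝ) ^ (-((1 / ε) ^ (490 / ε ^ 2))) * Fintype.card V ≤ U.card := by
  classical
  obtain ⟨w, hw⟩ : ∃ w : V → V → ℝ, w = fun x y => if G.Adj x y then 1 else 0 := ⟨_, rfl⟩
  have hwt : EpsReg.Wt w := by
    subst hw
    refine ⟨fun x y => ?_, fun x y => ?_, fun x y => ?_, fun x => ?_⟩
    · dsimp only
      split_ifs <;> norm_num
    · dsimp only
      split_ifs <;> norm_num
    · simp only [G.adj_comm]
    · simp
  have hd : ∀ X Y : Finset V, EpsReg.Dn w X Y = dens G X Y := by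
    intro X Y
    unfold EpsReg.Dn EpsReg.E dens
    congr 1
    rw [← Finset.sum_product', hw, Finset.card_filter]
    push_cast
    refine Finset.sum_congr rfl fun p _ => ?_
    by_cases h : G.Adj p.1 p.2 <;> simp [h]
  obtain ⟨U, h1, h2, h3⟩ := EpsReg.main_w w hwt ε hε hε2
  refine ⟨U, ⟨h1, fun X Y hX hY hX2 hY2 => ?_⟩, h3⟩
  have h4 := h2 X Y hX hY hX2 hY2
  rwa [hd, hd] at h4

end Pool.Agent.Results.MP_b47c0e_co.ImprovedBound
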